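import Mathlib
import Pool.Agent.H458.Sp.Voj

set_option autoImplicit false

/-!
# Vojta's height inequality for the sparse quadratic points `(x, √f(x))`

Let `f` be a separable polynomial of degree `n` with integral coefficients.  Let `x`, `s`, `D` be
integers with `f(x) = D s ^ 2 ≠ 0` which are combinations of the same `r` powers of some integer
`b ≥ 2` with integral coefficients of absolute value at most `B`.  Then
`|x| ^ (n - 2) ≤ C |D|` with an explicit constant `C` which does not depend on `b`.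

For even `n = 2 g + 2` this is the height inequality of Vojta with `ε = 0` for the quadratic points
`P = (x, √f(x))` of the curve `y ^ 2 = f(x)` of genus `g`, with respect to the divisor at infinity:
if `D` is squarefree, `|D_{ℚ(P)}|` is `|D|` or `4 |D|`, and the inequality says
`m(∞, P) + h_K(P) ≤ d(P) + O(1)`, since the left hand side is `log |x| + (g - 1) log |x|`.

Method: a transfer principle for sizes and zeros reduces the inequality to polynomials
`f(X) = D Y ^ 2` in one variable; there `Y` divides the derivative of `X`.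
-/

namespace Pool.Agent.Results.MP_6f1c57_nt.SparseQuadraticPoints

open Pool.Agent.H458.Sp

/-- the sparse integer with coefficients `c` and exponents `e` in base `b` -/
def sp {r : ℕ} (b : ℕ) (e : Fin r → ℕ) (c : Fin r → ℤ) : ℤ := ∑ j, c j * (b : ℤ) ^ (e j)

/-- the auxiliary number `S`, where `A` bounds the sum of the absolute values of the coefficients
of `f` and `d = max n 3` -/
def ss (r B A d : ℕ) : ℕ := 2 * (A + 1) * (r * B) ^ d

/-- the constant -/
def const (r B A n : ℕ) : ℕ :=
  (r * B * (ss r B A (max n 3)) ^ (4 * (4 * max n 3) ^ r)) ^ (n - 2) *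
    (ss r B A (max n 3)) ^ 2

open MvPolynomial in
/-- the polynomial `f(X_0) - X_2 X_1 ^ 2` -/
noncomputable def form (f : Polynomial ℤ) : MvPolynomial (Fin 3) ℤ :=
  ∑ k ∈ Finset.range (f.natDegree + 1), C (f.coeff k) * X 0 ^ k - X 2 * X 1 ^ 2

open MvPolynomial in
theorem form_eval (f : Polynomial ℤ) (z : Fin 3 → ℤ) :
    eval z (form f) = f.eval (z 0) - z 2 * z 1 ^ 2 := by
  unfold form
  rw [map_sub, map_sum, Polynomial.eval_eq_sum_range]
  simp

open MvPolynomial in
theorem form_aeval (f : Polynomial ℤ) (p : Fin 3 → Polynomial ℤ) :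
    aeval p (form f) = f.comp (p 0) - p 2 * p 1 ^ 2 := by
  unfold form
  rw [map_sub, map_sum, Polynomial.comp, Polynomial.eval₂_eq_sum_range]
  simp only [map_mul, map_pow, aeval_X, aeval_C]
  rfl

open MvPolynomial in
theorem form_nz (f : Polynomial ℤ) (A : ℕ)
    (hA : ∑ k ∈ Finset.range (f.natDegree + 1), |f.coeff k| ≤ A) : nz (form f) ≤ A + 1 := by
  unfold form
  refine (nz_sub' _ _).trans (add_le_add ?_ ?_)
  · refine (nz_sum _ _).trans (le_trans (Finset.sum_le_sum fun k _ => ?_) hA)
    have hC : nz (C (f.coeff k) : MvPolynomial (Fin 3) ℤ) ≤ |f.coeff k| := nz_monomial 0 _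
    have hX : nz (X 0 ^ k : MvPolynomial (Fin 3) ℤ) ≤ 1 := by
      have := nz_pow (X 0 : MvPolynomial (Fin 3) ℤ) 1 (nz_X' 0) k
      rwa [one_pow] at this
    have h1 := (nz_mul (C (f.coeff k) : MvPolynomial (Fin 3) ℤ) (X 0 ^ k)).trans
      (mul_le_mul hC hX (nz_nonneg _) (abs_nonneg _))
    rwa [mul_one] at h1
  · have hX : nz (X 1 ^ 2 : MvPolynomial (Fin 3) ℤ) ≤ 1 := by
      have := nz_pow (X 1 : MvPolynomial (Fin 3) ℤ) 1 (nz_X' 1) 2
      rwa [one_pow] at this
    have h1 := (nz_mul (X 2 : MvPolynomial (Fin 3) ℤ) (X 1 ^ 2)).trans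
      (mul_le_mul (nz_X' 2) hX (nz_nonneg _) (by norm_num))
    rwa [mul_one] at h1

open MvPolynomial in
theorem form_deg (f : Polynomial ℤ) : (form f).totalDegree ≤ max f.natDegree 3 := by
  unfold form
  refine (totalDegree_sub _ _).trans (max_le_max ?_ ?_)
  · refine totalDegree_finsetSum_le fun k hk => ?_
    refine (totalDegree_mul _ _).trans ?_
    rw [totalDegree_C, totalDegree_X_pow]
    rw [Finset.mem_range] at hk
    omega
  · refine (totalDegree_mul _ _).trans ?_
    rw [totalDegree_X, totalDegree_X_pow]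

theorem result (f : Polynomial ℤ) (hf : (f.map (Int.castRingHom ℚ)).Separable) (A : ℕ)
    (hA : ∑ k ∈ Finset.range (f.natDegree + 1), |f.coeff k| ≤ A) (b : ℕ) (hb : 2 ≤ b) (r B : ℕ)
    (e : Fin r → ℕ) (cx cs cD : Fin r → ℤ) (hcx : ∀ j, |cx j| ≤ B) (hcs : ∀ j, |cs j| ≤ B)
    (hcD : ∀ j, |cD j| ≤ B) (x s D : ℤ) (hx : x = sp b e cx) (hs : s = sp b e cs)
    (hD : D = sp b e cD) (heq : f.eval x = D * s ^ 2) (hne : f.eval x ≠ 0) :
    |x| ^ (f.natDegree - 2) ≤ const r B A f.natDegree * |D| := by
  classical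
  have hD0 : D ≠ 0 := by
    rintro rfl
    rw [zero_mul] at heq
    exact hne heq
  have hrB : 1 ≤ r * B := by
    by_contra hcon
    apply hD0
    rw [hD]
    unfold sp
    rcases Nat.mul_eq_zero.1 (show r * B = 0 by omega) with h | h
    · subst h
      simp
    · have h1 : ∀ j, cD j = 0 := fun j => by
        have := hcD j
        rw [h] at this
        exact abs_eq_zero.1 (le_antisymm (by simpa using this) (abs_nonneg _))
      simp [h1]
  set n := f.natDegree with hn
  set d := max n 3 with hd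
  set S := ss r B A d with hS
  have hP1 : 1 ≤ (r * B) ^ d := Nat.one_le_pow _ _ hrB
  have hS2 : 2 ≤ S := by
    rw [hS]
    unfold ss
    nlinarith
  set c : Fin 3 → Fin r → ℤ := ![cx, cs, cD] with hc
  have hcB : ∀ i j, |c i j| ≤ B := by
    intro i j
    fin_cases i
    · exact hcx j
    · exact hcs j
    · exact hcD j
  set z : Fin 3 → ℤ := ![x, s, D] with hz
  have hev : ∀ i, MvPolynomial.eval (fun j => (b : ℤ) ^ (e j)) (li (c i)) = z i := by
    have key : ∀ g : Fin r → ℤ, MvPolynomial.eval (fun j => (b : ℤ) ^ (e j)) (li g) =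
        sp b e g := by
      intro g
      rw [eval_li]
      exact Finset.sum_congr rfl fun j _ => mul_comm _ _
    intro i
    rw [key]
    fin_cases i
    · exact hx.symm
    · exact hs.symm
    · exact hD.symm
  obtain ⟨m, l, hml, hup, htr⟩ := transfer_three b hb d (by omega) S hS2 e
  set p : Fin 3 → Polynomial ℤ := fun i => sub (b : ℤ) m l (li (c i)) with hp
  have hpe : ∀ i, (p i).eval (b : ℤ) = z i := by
    intro i
    rw [hp]
    simp only
    rw [sub_eval]
    simp only [hml]
    exact hev i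
  have hrBd : ((r * B : ℕ) : ℤ) ≤ (((r * B) ^ d : ℕ) : ℤ) := by
    exact_mod_cast Nat.le_self_pow (by omega) _
  have hSZ : (S : ℤ) = 2 * (A + 1) * ((r : ℤ) * B) ^ d := by
    rw [hS]
    unfold ss
    push_cast
    ring
  have hP1Z : (1 : ℤ) ≤ ((r : ℤ) * B) ^ d := by exact_mod_cast hP1
  have hAZ : (0 : ℤ) ≤ A := by positivity
  -- the equation for the polynomials
  have hpoly : f.comp (p 0) = p 2 * p 1 ^ 2 := by
    set G := MvPolynomial.bind₁ (fun i => li (c i)) (form f) with hG
    have h1 : sub (b : ℤ) m l G = 0 := by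
      refine (htr G (bind_degree c (form f) d (form_deg f)) ?_).2 ?_
      · have h2 := bind_nz c B hcB hrB (form f) d (form_deg f)
        have h3 : nz (form f) * (r * B : ℤ) ^ d ≤ (A + 1) * (r * B : ℤ) ^ d :=
          mul_le_mul_of_nonneg_right (form_nz f A hA) (by positivity)
        rw [hSZ]
        linarith
      · rw [hG, eval_bind]
        simp only [hev]
        rw [form_eval]
        show f.eval x - D * s ^ 2 = 0
        rw [heq]
        ring
    rw [hG] at h1
    unfold sub at h1
    rw [MvPolynomial.aeval_bind₁] at h1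
    have h2 := form_aeval f p
    rw [hp] at h2
    unfold sub at h2
    rw [h1] at h2
    have h3 := _root_.sub_eq_zero.1 h2.symm
    rw [hp]
    unfold sub
    exact h3
  have hcomp0 : f.comp (p 0) ≠ 0 := by
    intro h
    have h1 := congrArg (Polynomial.eval (b : ℤ)) h
    rw [Polynomial.eval_comp, hpe, Polynomial.eval_zero] at h1
    exact hne h1
  have hdeg := square_factor f hf (p 0) (p 1) (p 2) hpoly hcomp0
  -- sizes
  have hlow : (b : ℤ) ^ (p 2).natDegree ≤ (S : ℤ) ^ 2 * |D| := by
    have h1 := (htr (li (c 2)) (fun α hα => ?_) ?_).1 (by rw [hev]; exact hD0)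
    · rw [hev] at h1
      exact h1
    · refine (sum_le_totalDegree _ α hα).trans ?_
      exact (li_homog (c 2)).totalDegree_le.trans (by omega)
    · have h1 := li_nz (c 2) B (hcB 2)
      rw [hSZ]
      push_cast at hrBd
      nlinarith
  have hxle : |x| ≤ ((r * B : ℕ) * (S : ℤ) ^ (4 * (4 * d) ^ r)) * (b : ℤ) ^ (p 0).natDegree := by
    have h1 := hup (c 0)
    rw [hev] at h1
    refine h1.trans (mul_le_mul_of_nonneg_right (mul_le_mul_of_nonneg_right ?_ (by positivity))
      (by positivity))
    have h2 := li_nz (c 0) B (hcB 0)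
    push_cast
    exact h2
  have hbZ : (1 : ℤ) ≤ b := by
    have : 1 ≤ b := by omega
    exact_mod_cast this
  calc |x| ^ (n - 2) ≤ (((r * B : ℕ) * (S : ℤ) ^ (4 * (4 * d) ^ r)) *
        (b : ℤ) ^ (p 0).natDegree) ^ (n - 2) := pow_le_pow_left₀ (abs_nonneg _) hxle _
    _ = ((r * B : ℕ) * (S : ℤ) ^ (4 * (4 * d) ^ r)) ^ (n - 2) *
        (b : ℤ) ^ ((n - 2) * (p 0).natDegree) := by
        rw [mul_pow, ← pow_mul (b : ℤ), mul_comm (p 0).natDegree]
    _ ≤ ((r * B : ℕ) * (S : ℤ) ^ (4 * (4 * d) ^ r)) ^ (n - 2) *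
        (b : ℤ) ^ (p 2).natDegree :=
        mul_le_mul_of_nonneg_left (pow_le_pow_right₀ hbZ hdeg) (by positivity)
    _ ≤ ((r * B : ℕ) * (S : ℤ) ^ (4 * (4 * d) ^ r)) ^ (n - 2) * ((S : ℤ) ^ 2 * |D|) :=
        mul_le_mul_of_nonneg_left hlow (by positivity)
    _ = const r B A n * |D| := by
        unfold const
        rw [← hd, ← hS]
        push_cast
        ring

end Pool.Agent.Results.MP_6f1c57_nt.SparseQuadraticPoints
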